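import Pool.Agent.X77.RR.Main

/-!
# The ratio of free plaquettes and bumps: one-step and two-step inequalities
-/

set_option autoImplicit false

namespace X77.CC

open Finset Filter Topology KN KN.KQ
open scoped Classical

noncomputable section

/-- one step, lower bound for `a (n+2)` -/
theorem lower1 (hsum : S_sum) (hch : S_change) (Q : List Dir → Prop) (hQ : Inv Q)
    (n : ℕ) (hn : 10 ^ 10 ≤ n) :
    ∑ w ∈ (K Q n).filter (CONV.good n), (fr w : ℝ) / ((bu w : ℝ) + 5) ≤ a Q (n + 2) := by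
  set F : List Dir → List Dir → ℝ := fun w w' => if CONV.good n w then 1 / (bu w' : ℝ) else 0
    with hF
  have hS := hsum Q hQ n (by omega) F
  have s1 : ∑ w ∈ K Q (n + 2), ∑ j ∈ bumps w, F (rem w j) w ≤ a Q (n + 2) := by
    have e1 : (a Q (n + 2) : ℝ) = ∑ w ∈ K Q (n + 2), (1 : ℝ) := by
      unfold a; rw [sum_const, nsmul_eq_mul, mul_one]
    rw [e1]
    apply sum_le_sum
    intro w _
    refine le_trans ?_ (CONV.sum_inv_le w)
    apply sum_le_sum
    intro j _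
    simp only [hF]
    split_ifs
    · exact le_rfl
    · positivity
  refine le_trans ?_ s1
  rw [← hS, sum_filter]
  apply sum_le_sum
  intro w hw
  rw [mem_K] at hw
  by_cases hgw : CONV.good n w
  · rw [if_pos hgw]
    have hb : 1000 < bu w := by
      have := hgw.2; omega
    have hb' : (1000 : ℝ) < bu w := by exact_mod_cast hb
    have key : ∀ q ∈ sites w, 1 / ((bu w : ℝ) + 5) ≤ F w (ins w q.1 q.2) := by
      intro q hq
      have hs : site w q.1 q.2 := mem_sites.mp hq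
      obtain ⟨c1, c2, c3, c4⟩ := hch w q.1 q.2 hw.2.1 hs
      have c3' : (bu (ins w q.1 q.2) : ℝ) ≤ bu w + 5 := by exact_mod_cast c3
      have c4' : (bu w : ℝ) ≤ bu (ins w q.1 q.2) + 3 := by exact_mod_cast c4
      simp only [hF, if_pos hgw]
      apply one_div_le_one_div_of_le <;> linarith
    calc (fr w : ℝ) / ((bu w : ℝ) + 5) = ∑ q ∈ sites w, 1 / ((bu w : ℝ) + 5) := by
          rw [sum_const, nsmul_eq_mul, mul_one_div]; rfl
      _ ≤ _ := sum_le_sum key
  · rw [if_neg hgw]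
    apply sum_nonneg
    intro q _
    simp only [hF, if_neg hgw]
    exact le_rfl

theorem term0 (F B n : ℝ) (hn : 10 ^ 10 ≤ n) (hF : 0 ≤ F) (hB : n < 10 ^ 7 * B) :
    (1 - 5 * 10 ^ 7 / n) * (F / B) ≤ F / (B + 5) := by
  have hn0 : 0 < n := by linarith
  have hB0 : 1000 < B := by linarith
  have h1 : 5 / B ≤ 5 * 10 ^ 7 / n := by
    rw [div_le_div_iff₀ (by linarith) hn0]; nlinarith
  have h2 : (1 - 5 / B) * (F / B) ≤ F / (B + 5) := by
    have e : (1 - 5 / B) * (F / B) = F * (B - 5) / (B * B) := by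
      field_simp
    rw [e, div_le_div_iff₀ (by positivity) (by linarith)]
    have : (B - 5) * (B + 5) ≤ B * B := by nlinarith
    calc F * (B - 5) * (B + 5) = F * ((B - 5) * (B + 5)) := by ring
      _ ≤ F * (B * B) := mul_le_mul_of_nonneg_left this hF
  refine le_trans ?_ h2
  apply mul_le_mul_of_nonneg_right
  · linarith
  · apply div_nonneg hF; linarith

/-- the analytic part -/
theorem fin2 (A0 A1 A2 E S1 S2 G n : ℝ) (hn : 10 ^ 10 ≤ n) (hA1 : 0 ≤ A1)
    (hS1 : 0 ≤ S1) (hS2 : 0 ≤ S2) (hG : G ≤ A0)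
    (h1 : A1 - E ≤ (1 + 6 * 10 ^ 7 / n) * S1) (hE : E ≤ A1 / n)
    (h1' : (1 - 5 * 10 ^ 7 / n) * S1 ≤ A1)
    (h2 : (1 - 43 * 10 ^ 7 / n) * S2 ≤ A2) :
    |S1 - A1| ≤ 10 ^ 9 / n * A1 ∧ ∀ x : ℝ, 0 ≤ x →
      S2 - 2 * x * S1 + x ^ 2 * G ≤
        A2 * (1 + 10 ^ 9 / n) - 2 * x * (A1 * (1 - 10 ^ 9 / n)) + x ^ 2 * A0 := by
  have hn0 : 0 < n := by linarith
  obtain ⟨y, hy⟩ : ∃ y : ℝ, y = 10 ^ 9 / n := ⟨_, rfl⟩
  have hy0 : 0 < y := by rw [hy]; positivity
  have hy1 : y ≤ 1 / 10 := by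
    rw [hy, div_le_div_iff₀ hn0 (by norm_num)]; linarith
  have e1 : 6 * 10 ^ 7 / n = 6 / 100 * y := by rw [hy]; ring
  have e1' : 5 * 10 ^ 7 / n = 5 / 100 * y := by rw [hy]; ring
  have e2 : 43 * 10 ^ 7 / n = 43 / 100 * y := by rw [hy]; ring
  have e3 : A1 / n = A1 * (y / 10 ^ 9) := by rw [hy]; field_simp
  rw [e1] at h1
  rw [e1'] at h1'
  rw [e2] at h2
  rw [e3] at hE
  rw [← hy]
  have hA2 : 0 ≤ A2 := le_trans (mul_nonneg (by linarith) hS2) h2
  -- upper bound for `S1`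
  have u1 : S1 ≤ A1 * (1 + y) := by
    have p : 0 < 1 - 5 / 100 * y := by linarith
    refine le_of_mul_le_mul_left ?_ p
    refine h1'.trans ?_
    have q : (1 : ℝ) ≤ (1 - 5 / 100 * y) * (1 + y) := by nlinarith
    calc A1 = A1 * 1 := (mul_one _).symm
      _ ≤ A1 * ((1 - 5 / 100 * y) * (1 + y)) := mul_le_mul_of_nonneg_left q hA1
      _ = _ := by ring
  have u2 : A1 * (1 - y) ≤ S1 := by
    have p : 0 < 1 + 6 / 100 * y := by linarith
    refine le_of_mul_le_mul_left ?_ p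
    have q : (1 + 6 / 100 * y) * (1 - y) ≤ 1 - y / 10 ^ 9 := by nlinarith
    calc (1 + 6 / 100 * y) * (A1 * (1 - y)) = A1 * ((1 + 6 / 100 * y) * (1 - y)) := by ring
      _ ≤ A1 * (1 - y / 10 ^ 9) := mul_le_mul_of_nonneg_left q hA1
      _ ≤ A1 - E := by linarith
      _ ≤ _ := h1
  have u3 : S2 ≤ A2 * (1 + y) := by
    have p : 0 < 1 - 43 / 100 * y := by linarith
    refine le_of_mul_le_mul_left ?_ p
    refine h2.trans ?_
    have q : (1 : ℝ) ≤ (1 - 43 / 100 * y) * (1 + y) := by nlinarith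
    calc A2 = A2 * 1 := (mul_one _).symm
      _ ≤ A2 * ((1 - 43 / 100 * y) * (1 + y)) := mul_le_mul_of_nonneg_left q hA2
      _ = _ := by ring
  refine ⟨abs_le.2 ⟨by linarith, by linarith⟩, fun x hx => ?_⟩
  have v1 : 2 * x * (A1 * (1 - y)) ≤ 2 * x * S1 := mul_le_mul_of_nonneg_left u2 (by linarith)
  have v2 : x ^ 2 * G ≤ x ^ 2 * A0 := mul_le_mul_of_nonneg_left hG (sq_nonneg x)
  linarith

/-- the ratio of free plaquettes and bumps, cut at `10 ^ 8` -/
def X (w : List Dir) : ℝ := min ((fr w : ℝ) / (bu w : ℝ)) (10 ^ 8)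

/-- the mean over the words of length `n` in the class `Q` -/
def mean (Q : List Dir → Prop) (n : ℕ) (f : List Dir → ℝ) : ℝ := (∑ w ∈ K Q n, f w) / a Q n

theorem X_nonneg (w : List Dir) : 0 ≤ X w := le_min (by positivity) (by norm_num)

theorem X_le (w : List Dir) : X w ≤ 10 ^ 8 := min_le_right _ _

theorem X_good (Q : List Dir → Prop) (n : ℕ) (w : List Dir) (hn : 10 ^ 10 ≤ n) (hw : w ∈ K Q n)
    (hg : CONV.good n w) : X w = (fr w : ℝ) / (bu w : ℝ) := by
  refine min_eq_left ?_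
  have hn0 : 0 < n := by omega
  have hb : 0 < bu w := by
    have := hg.2; omega
  have hb' : (0 : ℝ) < bu w := by exact_mod_cast hb
  have h1 := CONV.fr_le w
  rw [(mem_K.1 hw).1] at h1
  have h2 : (fr w : ℝ) ≤ 6 * n := by exact_mod_cast h1
  have h3 : (n : ℝ) ≤ 10 ^ 7 * bu w := by exact_mod_cast hg.2.le
  rw [div_le_iff₀ hb']
  linarith

end

end X77.CC
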