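import Pool.Agent.X77.CC.Main
import Pool.Agent.X77.RR.Form

/-!
# Concentration of the ratio of free plaquettes and bumps
-/

set_option autoImplicit false

namespace X77.CC

open Finset Filter Topology KN KN.KQ TH966.KS X77.RR

noncomputable section

/-- the ratio of consecutive counts -/
def rt (Q : List Dir → Prop) (k : ℕ) : ℝ := pq Q (2 * k + 2) / pq Q (2 * k)

/-- the mean square deviation of `X` from `x` at the length `2 k` -/
def dv (Q : List Dir → Prop) (k : ℕ) (x : ℝ) : ℝ := mean Q (2 * k) (fun w => (X w - x) ^ 2)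

theorem rt_succ (Q : List Dir → Prop) (k : ℕ) :
    rt Q (k + 1) = pq Q (2 * k + 4) / pq Q (2 * k + 2) := by
  unfold rt
  rw [show 2 * (k + 1) + 2 = 2 * k + 4 by ring, show 2 * (k + 1) = 2 * k + 2 by ring]

theorem dv_nonneg (Q : List Dir → Prop) (k : ℕ) (x : ℝ) : 0 ≤ dv Q k x := by
  unfold dv mean
  exact div_nonneg (sum_nonneg fun w _ => sq_nonneg _) (Nat.cast_nonneg _)

/-- two ratios -/
theorem two_ratios {Q : List Dir → Prop} (hQ : KClass Q) (hne : ∃ w, SAP w ∧ Q w) {ε : ℝ}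
    (hε : 0 < ε) : ∃ δ : ℝ, 0 < δ ∧ δ < 1 ∧ ∀ᶠ k : ℕ in atTop,
      ((1 - δ) * gr Q) ^ (2 * k) ≤ pq Q (2 * k) →
      |rt Q k - gr Q ^ 2| ≤ ε ∧ |rt Q (k + 1) - gr Q ^ 2| ≤ ε := by
  obtain ⟨h1, -, h5⟩ := gr_bounds Q hQ hne
  have hg : 0 < gr Q := by linarith
  have hg2 : 14 ≤ gr Q ^ 2 := by nlinarith
  obtain ⟨δ₁, hδ0, hδ1, hrat⟩ := class_ratio Q hQ hne (min ε 1) (lt_min hε one_pos)
  have ht : Tendsto (fun k : ℕ => 2 * k) atTop atTop :=
    tendsto_id.const_mul_atTop' (by norm_num)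
  have hq : 1 < (1 - δ₁ / 2) / (1 - δ₁) := by
    rw [lt_div_iff₀ (by linarith)]; linarith
  have hpow : Tendsto (fun k : ℕ => ((1 - δ₁ / 2) / (1 - δ₁)) ^ (2 * k)) atTop atTop :=
    (tendsto_pow_atTop_atTop_of_one_lt hq).comp ht
  refine ⟨δ₁ / 2, by linarith, by linarith, ?_⟩
  filter_upwards [hrat, (tendsto_add_atTop_nat 1).eventually hrat, hpow.eventually_ge_atTop 2]
    with k e1 e2 e3 hbig
  have c0 : 0 < 1 - δ₁ := by linarith
  have p0 : 0 < pq Q (2 * k) := lt_of_lt_of_le (pow_pos (mul_pos (by linarith) hg) _) hbig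
  have hle : ((1 - δ₁) * gr Q) ^ (2 * k) ≤ pq Q (2 * k) := by
    refine le_trans (pow_le_pow_left₀ (mul_pos c0 hg).le ?_ _) hbig
    exact mul_le_mul_of_nonneg_right (by linarith) hg.le
  have r1 := e1 hle
  have r1' := abs_le.1 (r1.trans (min_le_right _ _))
  have hr0 : 0 < rt Q k := by unfold rt; linarith
  have hrp : pq Q (2 * k + 2) = rt Q k * pq Q (2 * k) := by unfold rt; field_simp
  have b1 : ((1 - δ₁) * gr Q) ^ (2 * (k + 1)) ≤ pq Q (2 * (k + 1)) := by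
    rw [show 2 * (k + 1) = 2 * k + 2 by ring, hrp]
    have c1 : ((1 - δ₁ / 2) * gr Q) ^ (2 * k) = ((1 - δ₁ / 2) / (1 - δ₁)) ^ (2 * k) *
        ((1 - δ₁) * gr Q) ^ (2 * k) := by
      rw [← mul_pow]; congr 1; field_simp
    have c4 : 0 < ((1 - δ₁) * gr Q) ^ (2 * k) := pow_pos (mul_pos c0 hg) _
    have c2 : 2 * ((1 - δ₁) * gr Q) ^ (2 * k) ≤ pq Q (2 * k) := by
      refine le_trans ?_ hbig
      rw [c1]
      exact mul_le_mul_of_nonneg_right e3 c4.le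
    have c3 : ((1 - δ₁) * gr Q) ^ 2 ≤ rt Q k * 2 := by
      have h6 : ((1 - δ₁) * gr Q) ^ 2 ≤ gr Q ^ 2 := by
        rw [mul_pow]
        have : (1 - δ₁) ^ 2 ≤ 1 := by nlinarith
        nlinarith
      have h7 : gr Q ^ 2 - 1 ≤ rt Q k := by unfold rt; linarith
      linarith
    calc ((1 - δ₁) * gr Q) ^ (2 * k + 2) = ((1 - δ₁) * gr Q) ^ 2 *
          ((1 - δ₁) * gr Q) ^ (2 * k) := by rw [pow_add]; ring
      _ ≤ (rt Q k * 2) * ((1 - δ₁) * gr Q) ^ (2 * k) := mul_le_mul_of_nonneg_right c3 c4.le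
      _ = rt Q k * (2 * ((1 - δ₁) * gr Q) ^ (2 * k)) := by ring
      _ ≤ _ := mul_le_mul_of_nonneg_left c2 hr0.le
  exact ⟨r1.trans (min_le_left _ _), (e2 b1).trans (min_le_left _ _)⟩

/-- mean and mean square deviation -/
theorem dev_all {Q : List Dir → Prop} (hQ : KClass Q) (hne : ∃ w, SAP w ∧ Q w) :
    ∃ δ : ℝ, 0 < δ ∧ δ < 1 ∧ ∀ᶠ k : ℕ in atTop,
      ((1 - δ) * gr Q) ^ (2 * k) ≤ pq Q (2 * k) →
      |mean Q (2 * k) X - rt Q k| ≤ 10 ^ 17 / k ∧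
      (∀ x : ℝ, 0 ≤ x → x ≤ 30 →
        |dv Q k x - ((x - rt Q k) ^ 2 + rt Q k * (rt Q (k + 1) - rt Q k))| ≤ 10 ^ 17 / k) ∧
      dv Q k (rt Q k) ≤ rt Q k * (rt Q (k + 1) - rt Q k) + 10 ^ 17 / k ∧
      dv Q k (gr Q ^ 2) ≤ 30 * (|rt Q k - gr Q ^ 2| + |rt Q (k + 1) - gr Q ^ 2|) +
        10 ^ 17 / k := by
  obtain ⟨h1, -, h5⟩ := gr_bounds Q hQ hne
  have hg2 : 14 ≤ gr Q ^ 2 := by nlinarith
  have hg25 : gr Q ^ 2 ≤ 25 := by nlinarith
  obtain ⟨δ, hδ0, hδ1, h⟩ := class_dev hQ hne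
  refine ⟨δ, hδ0, hδ1, ?_⟩
  filter_upwards [h] with k hk hbig
  obtain ⟨a1, a2, a3, a4⟩ := hk hbig
  rw [← rt_succ] at a2 a4
  change |rt Q k - gr Q ^ 2| ≤ 1 at a1
  change |mean Q (2 * k) X - rt Q k| ≤ 10 ^ 17 / k at a3
  have a4' : ∀ x : ℝ, 0 ≤ x → x ≤ 30 →
      |dv Q k x - ((x - rt Q k) ^ 2 + rt Q k * (rt Q (k + 1) - rt Q k))| ≤ 10 ^ 17 / k := a4
  have a1' := abs_le.1 a1
  refine ⟨a3, a4', ?_, ?_⟩
  · have h6 := (abs_le.1 (a4' (rt Q k) (by linarith) (by linarith))).2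
    rw [sub_self] at h6
    linarith
  · have h6 := (abs_le.1 (a4' (gr Q ^ 2) (by linarith) (by linarith))).2
    have h7 : (gr Q ^ 2 - rt Q k) ^ 2 ≤ |rt Q k - gr Q ^ 2| := by
      have e : (gr Q ^ 2 - rt Q k) ^ 2 = |rt Q k - gr Q ^ 2| ^ 2 := by
        rw [sq_abs]; ring
      rw [e]
      nlinarith [abs_nonneg (rt Q k - gr Q ^ 2)]
    have h8 : rt Q k * (rt Q (k + 1) - rt Q k) ≤
        26 * (|rt Q k - gr Q ^ 2| + |rt Q (k + 1) - gr Q ^ 2|) := by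
      have h9 : rt Q (k + 1) - rt Q k ≤ |rt Q k - gr Q ^ 2| + |rt Q (k + 1) - gr Q ^ 2| := by
        have := le_abs_self (rt Q (k + 1) - gr Q ^ 2)
        have := neg_abs_le (rt Q k - gr Q ^ 2)
        linarith
      have h10 : 0 ≤ |rt Q k - gr Q ^ 2| + |rt Q (k + 1) - gr Q ^ 2| := by positivity
      calc rt Q k * (rt Q (k + 1) - rt Q k) ≤
            rt Q k * (|rt Q k - gr Q ^ 2| + |rt Q (k + 1) - gr Q ^ 2|) :=
              mul_le_mul_of_nonneg_left h9 (by linarith)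
        _ ≤ _ := mul_le_mul_of_nonneg_right (by linarith) h10
    have := abs_nonneg (rt Q k - gr Q ^ 2)
    have := abs_nonneg (rt Q (k + 1) - gr Q ^ 2)
    linarith

theorem inv_small (C : ℝ) {ε : ℝ} (hε : 0 < ε) : ∀ᶠ k : ℕ in atTop, C / (k : ℝ) ≤ ε :=
  (tendsto_const_div_atTop_nhds_zero_nat C).eventually_le_const hε

/-- concentration at the lengths at which the count is close to its growth rate -/
theorem conc {Q : List Dir → Prop} (hQ : KClass Q) (hne : ∃ w, SAP w ∧ Q w) {ε : ℝ}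
    (hε : 0 < ε) : ∃ δ : ℝ, 0 < δ ∧ δ < 1 ∧ ∀ᶠ k : ℕ in atTop,
      ((1 - δ) * gr Q) ^ (2 * k) ≤ pq Q (2 * k) → dv Q k (gr Q ^ 2) ≤ ε := by
  obtain ⟨h1, -, h5⟩ := gr_bounds Q hQ hne
  have hg : 0 < gr Q := by linarith
  obtain ⟨δ₁, a1, a2, a3⟩ := dev_all hQ hne
  obtain ⟨δ₂, b1, b2, b3⟩ := two_ratios hQ hne (show 0 < ε / 120 by positivity)
  refine ⟨min δ₁ δ₂, lt_min a1 b1, lt_of_le_of_lt (min_le_left _ _) a2, ?_⟩
  filter_upwards [a3, b3, inv_small (10 ^ 17) (show 0 < ε / 2 by positivity)] with k c1 c2 c3 hbig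
  have hle : ∀ d : ℝ, d < 1 → min δ₁ δ₂ ≤ d → ((1 - d) * gr Q) ^ (2 * k) ≤ pq Q (2 * k) := by
    intro d hd hd2
    refine le_trans (pow_le_pow_left₀ (mul_pos (by linarith) hg).le ?_ _) hbig
    exact mul_le_mul_of_nonneg_right (by linarith) hg.le
  obtain ⟨-, -, -, d1⟩ := c1 (hle _ a2 (min_le_left _ _))
  obtain ⟨d2, d3⟩ := c2 (hle _ b2 (min_le_right _ _))
  linarith

/-- there are infinitely many such lengths -/
theorem freq {Q : List Dir → Prop} (hQ : KClass Q) (hne : ∃ w, SAP w ∧ Q w) {δ : ℝ}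
    (hδ : 0 < δ) (hδ1 : δ < 1) :
    ∃ᶠ k : ℕ in atTop, ((1 - δ) * gr Q) ^ (2 * k) ≤ pq Q (2 * k) := by
  obtain ⟨h1, -, h5⟩ := gr_bounds Q hQ hne
  have hg : 0 < gr Q := by linarith
  by_contra hcon
  rw [not_frequently] at hcon
  have h2 : ∀ᶠ k : ℕ in atTop, (pq Q (2 * k)) ^ (1 / (2 * k : ℝ)) ≤ (1 - δ) * gr Q := by
    filter_upwards [hcon, eventually_gt_atTop 0] with k h3 h4
    have hk : (0 : ℝ) < 2 * k := by
      have : (0 : ℝ) < k := by exact_mod_cast h4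
      linarith
    have h6 : 0 ≤ (1 - δ) * gr Q := (mul_pos (by linarith) hg).le
    calc (pq Q (2 * k)) ^ (1 / (2 * k : ℝ)) ≤
          (((1 - δ) * gr Q) ^ (2 * k)) ^ (1 / (2 * k : ℝ)) :=
            Real.rpow_le_rpow (pq_nn Q _) (not_le.1 h3).le (by positivity)
      _ = (1 - δ) * gr Q := by
            rw [← Real.rpow_natCast, ← Real.rpow_mul h6]
            push_cast
            rw [mul_one_div_cancel hk.ne', Real.rpow_one]
  have h7 : gr Q ≤ (1 - δ) * gr Q := by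
    refine limsup_le_of_le ?_ h2
    exact isCoboundedUnder_le_of_le atTop (x := 0) fun k => Real.rpow_nonneg (pq_nn Q _) _
  nlinarith

/-- if the roots converge, then all large lengths are of this kind -/
theorem ev_of_root {Q : List Dir → Prop} (hQ : KClass Q) (hne : ∃ w, SAP w ∧ Q w)
    (h : ∃ L : ℝ, Tendsto (fun j : ℕ => (pq Q (2 * j)) ^ (1 / (2 * j : ℝ))) atTop (𝓝 L))
    {δ : ℝ} (hδ : 0 < δ) (hδ1 : δ < 1) :
    ∀ᶠ k : ℕ in atTop, ((1 - δ) * gr Q) ^ (2 * k) ≤ pq Q (2 * k) := by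
  obtain ⟨h1, -, h5⟩ := gr_bounds Q hQ hne
  have hg : 0 < gr Q := by linarith
  obtain ⟨L, hL⟩ := h
  have hLg : gr Q = L := hL.limsup_eq
  rw [← hLg] at hL
  filter_upwards [hL.eventually (lt_mem_nhds (show (1 - δ) * gr Q < gr Q by nlinarith)),
    eventually_gt_atTop 0] with k h3 h4
  have hk : (0 : ℝ) < 2 * k := by
    have : (0 : ℝ) < k := by exact_mod_cast h4
    linarith
  have h6 : 0 ≤ (1 - δ) * gr Q := (mul_pos (by linarith) hg).le
  have h7 := pow_le_pow_left₀ h6 h3.le (2 * k)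
  refine h7.trans (le_of_eq ?_)
  rw [← Real.rpow_natCast, ← Real.rpow_mul (pq_nn Q _)]
  push_cast
  rw [one_div_mul_cancel hk.ne', Real.rpow_one]

/-- convergence of the roots: concentration at all lengths, and at the scale of the central limit
theorem at most lengths -/
theorem root_conc {Q : List Dir → Prop} (hQ : KClass Q) (hne : ∃ w, SAP w ∧ Q w)
    (h : ∃ L : ℝ, Tendsto (fun j : ℕ => (pq Q (2 * j)) ^ (1 / (2 * j : ℝ))) atTop (𝓝 L)) :
    Tendsto (fun k : ℕ => mean Q (2 * k) X) atTop (𝓝 (gr Q ^ 2)) ∧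
    Tendsto (fun k : ℕ => dv Q k (gr Q ^ 2)) atTop (𝓝 0) ∧
    ∃ D : ℝ, ∀ ε : ℝ, 0 < ε → ∃ N : ℕ, ∀ j k : ℕ, N ≤ j → j ≤ k →
      ∑ i ∈ Finset.Ico j k, dv Q i (rt Q i) ≤ ε + D * ((k : ℝ) - j) / j := by
  obtain ⟨h1, -, h5⟩ := gr_bounds Q hQ hne
  have hg : 0 < gr Q := by linarith
  have hg25 : gr Q ^ 2 ≤ 25 := by nlinarith
  obtain ⟨δ, a1, a2, a3⟩ := dev_all hQ hne
  have hrat : Tendsto (fun k : ℕ => rt Q k) atTop (𝓝 (gr Q ^ 2)) := (root_all hQ hne h).1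
  have hall := a3.and (ev_of_root hQ hne h a1 a2)
  refine ⟨?_, ?_, 10 ^ 17, fun ε hε => ?_⟩
  · have h2 : Tendsto (fun k : ℕ => mean Q (2 * k) X - rt Q k) atTop (𝓝 0) := by
      refine squeeze_zero_norm' ?_ (tendsto_const_div_atTop_nhds_zero_nat (10 ^ 17 : ℝ))
      filter_upwards [hall] with k hk
      rw [Real.norm_eq_abs]
      exact (hk.1 hk.2).1
    have h3 := h2.add hrat
    simpa using h3
  · rw [Metric.tendsto_atTop']
    intro ε hε
    obtain ⟨δ', b1, b2, b3⟩ := conc hQ hne (half_pos hε)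
    obtain ⟨N, hN⟩ := eventually_atTop.1 (b3.and (ev_of_root hQ hne h b1 b2))
    refine ⟨N, fun k hk => ?_⟩
    obtain ⟨c1, c2⟩ := hN k hk.le
    rw [dist_zero_right, Real.norm_eq_abs, abs_of_nonneg (dv_nonneg _ _ _)]
    linarith [c1 c2]
  · have hsq : Tendsto (fun k : ℕ => rt Q k ^ 2 / 2) atTop (𝓝 ((gr Q ^ 2) ^ 2 / 2)) :=
      (hrat.pow 2).div_const 2
    obtain ⟨N1, hN1⟩ := Metric.tendsto_atTop.1 hsq (ε / 2) (half_pos hε)
    obtain ⟨N2, hN2⟩ := eventually_atTop.1 hall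
    refine ⟨N1 + N2 + 1, fun j k hj hjk => ?_⟩
    have hj0 : (0 : ℝ) < j := by exact_mod_cast (show 0 < j by omega)
    have key : ∀ k : ℕ, j ≤ k → ∑ i ∈ Finset.Ico j k, dv Q i (rt Q i) ≤
        rt Q k ^ 2 / 2 - rt Q j ^ 2 / 2 + 10 ^ 17 * ((k : ℝ) - j) / j := by
      intro k hk
      induction k, hk using Nat.le_induction with
      | base => simp
      | succ k hk ih =>
        rw [Finset.sum_Ico_succ_top hk]
        obtain ⟨-, -, c3, -⟩ := (hN2 k (by omega)).1 (hN2 k (by omega)).2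
        have hkR : (j : ℝ) ≤ k := by exact_mod_cast hk
        have h3 : (10 : ℝ) ^ 17 / k ≤ 10 ^ 17 / j :=
          div_le_div_of_nonneg_left (by norm_num) hj0 hkR
        have h4 : rt Q k * (rt Q (k + 1) - rt Q k) ≤ rt Q (k + 1) ^ 2 / 2 - rt Q k ^ 2 / 2 := by
          nlinarith [sq_nonneg (rt Q (k + 1) - rt Q k)]
        have h6 : (10 : ℝ) ^ 17 * (((k + 1 : ℕ) : ℝ) - j) / j =
            10 ^ 17 * ((k : ℝ) - j) / j + 10 ^ 17 / j := by
          push_cast; field_simp; ring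
        rw [h6]
        linarith
    refine (key k hjk).trans ?_
    have e1 := hN1 k (by omega)
    have e2 := hN1 j (by omega)
    rw [Real.dist_eq, abs_lt] at e1 e2
    linarith [e1.2, e2.1]

/-- rate for classes closed under connected sums -/
theorem sum_rate {Q : List Dir → Prop} (hQ : KClass Q) (hne : ∃ w, SAP w ∧ Q w)
    (hc : CSum Q) : ∃ R : ℝ, ∀ᶠ k : ℕ in atTop, dv Q k (gr Q ^ 2) ≤
      R * √((1 + |Real.log ((k : ℝ) ^ (2 / 3 : ℝ) * (pq Q (2 * k) / gr Q ^ (2 * k)))|) / k) := by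
  obtain ⟨h1, -, h5⟩ := gr_bounds Q hQ hne
  have hg : 0 < gr Q := by linarith
  have hroot : ∃ L : ℝ, Tendsto (fun j : ℕ => (pq Q (2 * j)) ^ (1 / (2 * j : ℝ))) atTop (𝓝 L) :=
    ⟨_, (class_sum Q hQ hne hc).1⟩
  obtain ⟨δ, a1, a2, a3⟩ := dev_all hQ hne
  have hall := a3.and (ev_of_root hQ hne hroot a1 a2)
  obtain ⟨R, hR⟩ := class_rate hQ hne hc
  obtain ⟨L, hL⟩ : ∃ L : ℕ → ℝ, L = fun k : ℕ =>
    |Real.log ((k : ℝ) ^ (2 / 3 : ℝ) * (pq Q (2 * k) / gr Q ^ (2 * k)))| := ⟨_, rfl⟩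
  have hLk : ∀ k : ℕ, |Real.log ((k : ℝ) ^ (2 / 3 : ℝ) * (pq Q (2 * k) / gr Q ^ (2 * k)))| =
    L k := fun k => by rw [hL]
  simp only [hLk] at hR ⊢
  have hL0 : ∀ k, 0 ≤ L k := fun k => by rw [← hLk]; exact abs_nonneg _
  have hrat : Tendsto (fun k : ℕ => rt Q k) atTop (𝓝 (gr Q ^ 2)) := (root_all hQ hne hroot).1
  -- the logarithms vary little
  have hlr : ∀ᶠ k : ℕ in atTop, |Real.log (rt Q k / gr Q ^ 2)| ≤ 1 / 4 := by
    have h2 : Tendsto (fun k : ℕ => |Real.log (rt Q k / gr Q ^ 2)|) atTop (𝓝 |Real.log 1|) := by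
      refine (Tendsto.log ?_ one_ne_zero).abs
      have := hrat.div_const (gr Q ^ 2)
      rwa [div_self (by positivity)] at this
    rw [Real.log_one, abs_zero] at h2
    exact h2.eventually_le_const (by norm_num)
  have hvar : ∀ᶠ k : ℕ in atTop, L (k + 1) ≤ L k + 1 := by
    filter_upwards [hlr, class_pos Q hQ hne, (tendsto_add_atTop_nat 1).eventually
      (class_pos Q hQ hne), eventually_ge_atTop 4] with k e1 e2 e3 e4
    have hk0 : (0 : ℝ) < k := by exact_mod_cast (show 0 < k by omega)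
    have hk1 : (0 : ℝ) < ((k + 1 : ℕ) : ℝ) := by exact_mod_cast (show 0 < k + 1 by omega)
    have hk4 : (4 : ℝ) ≤ k := by exact_mod_cast e4
    have hp1 : (0 : ℝ) < gr Q ^ (2 * k) := pow_pos hg _
    have hp2 : (0 : ℝ) < gr Q ^ (2 * (k + 1)) := pow_pos hg _
    rw [← hLk, ← hLk]
    have e5 : Real.log (((k + 1 : ℕ) : ℝ) ^ (2 / 3 : ℝ) *
        (pq Q (2 * (k + 1)) / gr Q ^ (2 * (k + 1)))) =
        Real.log ((k : ℝ) ^ (2 / 3 : ℝ) * (pq Q (2 * k) / gr Q ^ (2 * k))) +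
          (2 / 3 * (Real.log ((k + 1 : ℕ) : ℝ) - Real.log k) +
            Real.log (rt Q k / gr Q ^ 2)) := by
      rw [Real.log_mul (Real.rpow_pos_of_pos hk1 _).ne' (div_pos e3 hp2).ne',
        Real.log_mul (Real.rpow_pos_of_pos hk0 _).ne' (div_pos e2 hp1).ne',
        Real.log_rpow hk1, Real.log_rpow hk0, Real.log_div e3.ne' hp2.ne',
        Real.log_div e2.ne' hp1.ne', Real.log_div ?_ (by positivity), Real.log_pow, Real.log_pow,
        Real.log_pow]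
      · unfold rt
        rw [show 2 * k + 2 = 2 * (k + 1) by ring, Real.log_div e3.ne' e2.ne']
        push_cast
        ring
      · unfold rt
        rw [show 2 * k + 2 = 2 * (k + 1) by ring]
        exact (div_pos e3 e2).ne'
    rw [e5]
    refine (abs_add_le _ _).trans (add_le_add le_rfl ?_)
    refine (abs_add_le _ _).trans ?_
    have e6 : |2 / 3 * (Real.log ((k + 1 : ℕ) : ℝ) - Real.log k)| ≤ 1 / 4 := by
      rw [← Real.log_div hk1.ne' hk0.ne']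
      have h6 : (1 : ℝ) ≤ ((k + 1 : ℕ) : ℝ) / k := by
        rw [one_le_div hk0]; push_cast; linarith
      have h7 := Real.log_nonneg h6
      have h8 := Real.log_le_sub_one_of_pos (div_pos hk1 hk0)
      have h9 : ((k + 1 : ℕ) : ℝ) / k - 1 = 1 / k := by push_cast; field_simp; ring
      have h10 : (1 : ℝ) / k ≤ 1 / 4 := one_div_le_one_div_of_le (by norm_num) hk4
      rw [abs_of_nonneg (by positivity)]
      linarith
    linarith
  refine ⟨120 * |R| + 10 ^ 17, ?_⟩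
  filter_upwards [hall, hR, (tendsto_add_atTop_nat 1).eventually hR, hvar, eventually_ge_atTop 1]
    with k b1 b2 b3 b4 b5
  have hk0 : (0 : ℝ) < k := by exact_mod_cast (show 0 < k by omega)
  have hk1 : (1 : ℝ) ≤ k := by exact_mod_cast b5
  obtain ⟨-, -, -, c1⟩ := b1.1 b1.2
  set s : ℝ := √((1 + L k) / k) with hs
  have hs0 : 0 ≤ s := Real.sqrt_nonneg _
  have g1 : |rt Q k - gr Q ^ 2| ≤ |R| * s :=
    b2.trans (mul_le_mul_of_nonneg_right (le_abs_self R) hs0)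
  have g2 : |rt Q (k + 1) - gr Q ^ 2| ≤ |R| * (2 * s) := by
    have h3 : |rt Q (k + 1) - gr Q ^ 2| ≤ R * √((1 + L (k + 1)) / ((k + 1 : ℕ) : ℝ)) := b3
    refine h3.trans (mul_le_mul (le_abs_self R) ?_ (Real.sqrt_nonneg _) (abs_nonneg R))
    rw [hs, show (2 : ℝ) = √4 by
      rw [show (4 : ℝ) = 2 ^ 2 by norm_num, Real.sqrt_sq (by norm_num)], ← Real.sqrt_mul (by norm_num)]
    refine Real.sqrt_le_sqrt ?_
    have h6 : (1 + L (k + 1)) / ((k + 1 : ℕ) : ℝ) ≤ (1 + L (k + 1)) / k := by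
      refine div_le_div_of_nonneg_left (by linarith [hL0 (k + 1)]) hk0 ?_
      push_cast; linarith
    refine h6.trans ?_
    rw [← mul_div_assoc]
    refine div_le_div_of_nonneg_right ?_ hk0.le
    linarith [hL0 k]
  have g3 : (10 : ℝ) ^ 17 / k ≤ 10 ^ 17 * s := by
    rw [div_eq_mul_one_div]
    refine mul_le_mul_of_nonneg_left ?_ (by norm_num)
    rw [hs]
    refine Real.le_sqrt_of_sq_le ?_
    rw [div_pow, one_pow, div_le_div_iff₀ (by positivity) hk0]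
    nlinarith [hL0 k]
  calc dv Q k (gr Q ^ 2) ≤ 30 * (|rt Q k - gr Q ^ 2| + |rt Q (k + 1) - gr Q ^ 2|) +
        10 ^ 17 / k := c1
    _ ≤ 30 * (|R| * s + |R| * (2 * s)) + 10 ^ 17 * s := by linarith
    _ ≤ (120 * |R| + 10 ^ 17) * s := by
        have : 0 ≤ |R| * s := mul_nonneg (abs_nonneg R) hs0
        linarith

/-- rate if the counts are of polynomial order -/
theorem bounds_conc {Q : List Dir → Prop} (hQ : KClass Q) (hne : ∃ w, SAP w ∧ Q w)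
    {β c₁ c₂ : ℝ} (hc : 0 < c₁) (h : ∀ᶠ k : ℕ in atTop,
      c₁ ≤ pq Q (2 * k) / ((2 * k : ℝ) ^ β * gr Q ^ (2 * k)) ∧
      pq Q (2 * k) / ((2 * k : ℝ) ^ β * gr Q ^ (2 * k)) ≤ c₂) :
    ∃ R : ℝ, ∀ᶠ k : ℕ in atTop, |mean Q (2 * k) X - gr Q ^ 2| ≤ R / √k ∧
      dv Q k (gr Q ^ 2) ≤ R / √k := by
  obtain ⟨h1, -, h5⟩ := gr_bounds Q hQ hne
  have hg : 0 < gr Q := by linarith
  obtain ⟨δ, a1, a2, a3⟩ := dev_all hQ hne
  obtain ⟨R, hR⟩ := bounds_rate hQ hne hc h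
  -- the threshold
  have hth : ∀ᶠ k : ℕ in atTop, ((1 - δ) * gr Q) ^ (2 * k) ≤ pq Q (2 * k) := by
    have hlog : 0 < -(2 * Real.log (1 - δ)) := by
      have := Real.log_neg (show 0 < 1 - δ by linarith) (by linarith)
      linarith
    filter_upwards [h, exp_small hc hlog β, eventually_gt_atTop 0] with k e1 e2 e3
    have hk0 : (0 : ℝ) < k := by exact_mod_cast e3
    have hp : 0 < (2 * k : ℝ) ^ β := Real.rpow_pos_of_pos (by linarith) _
    have e4 := e1.1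
    rw [le_div_iff₀ (mul_pos hp (pow_pos hg _))] at e4
    refine le_trans ?_ e4
    rw [mul_pow, ← mul_assoc]
    refine mul_le_mul_of_nonneg_right (le_trans (le_of_eq ?_) e2) (pow_pos hg _).le
    have e5 : -(-(2 * Real.log (1 - δ)) * (k : ℝ)) = ((2 * k : ℕ) : ℝ) * Real.log (1 - δ) := by
      push_cast; ring
    rw [e5, Real.exp_nat_mul, Real.exp_log (by linarith)]
  refine ⟨30 * (2 * |R|) + 10 ^ 17, ?_⟩
  filter_upwards [a3, hth, hR, (tendsto_add_atTop_nat 1).eventually hR, eventually_ge_atTop 1]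
    with k b1 b2 b3 b4 b5
  have hk1 : (1 : ℝ) ≤ k := by exact_mod_cast b5
  have hk0 : (0 : ℝ) < k := by linarith
  have hs0 : 0 < √(k : ℝ) := Real.sqrt_pos.2 hk0
  obtain ⟨c0, -, -, c1⟩ := b1 b2
  have g1 : |rt Q k - gr Q ^ 2| ≤ |R| / √k :=
    b3.trans (div_le_div_of_nonneg_right (le_abs_self R) hs0.le)
  have g2 : |rt Q (k + 1) - gr Q ^ 2| ≤ |R| / √k := by
    have h3 : |rt Q (k + 1) - gr Q ^ 2| ≤ R / √((k + 1 : ℕ) : ℝ) := b4
    refine h3.trans (div_le_div₀ (abs_nonneg R) (le_abs_self R) hs0 (Real.sqrt_le_sqrt ?_))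
    push_cast; linarith
  have g3 : (10 : ℝ) ^ 17 / k ≤ 10 ^ 17 / √k := by
    refine div_le_div_of_nonneg_left (by norm_num) hs0 ?_
    rw [Real.sqrt_le_left hk0.le]
    nlinarith
  have g4 : 30 * (|R| / √k + |R| / √k) + 10 ^ 17 / √k = (30 * (2 * |R|) + 10 ^ 17) / √k := by
    ring
  constructor
  · have g5 : |mean Q (2 * k) X - gr Q ^ 2| ≤ |mean Q (2 * k) X - rt Q k| +
        |rt Q k - gr Q ^ 2| := by
      have : mean Q (2 * k) X - gr Q ^ 2 = (mean Q (2 * k) X - rt Q k) +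
        (rt Q k - gr Q ^ 2) := by ring
      rw [this]
      exact abs_add_le _ _
    have : 0 ≤ |R| / √(k : ℝ) := div_nonneg (abs_nonneg R) hs0.le
    linarith
  · linarith

end

end X77.CC
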