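import Pool.Agent.X77.CC.Fin

/-!
# Concentration of the ratio of free plaquettes and bumps if the asymptotic form holds
-/

set_option autoImplicit false

namespace X77.CC

open Finset Filter Topology KN KN.KQ TH966.KS X77.RR

noncomputable section

theorem form_conc {Q : List Dir → Prop} (hQ : KClass Q) (hne : ∃ w, SAP w ∧ Q w)
    {β A : ℝ} (hA : 0 < A) (h : Tendsto (fun k : ℕ =>
      pq Q (2 * k) / ((2 * k : ℝ) ^ β * gr Q ^ (2 * k))) atTop (𝓝 A)) :
    Tendsto (fun k : ℕ => √(k : ℝ) * (mean Q (2 * k) X - gr Q ^ 2)) atTop (𝓝 0) ∧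
    Tendsto (fun k : ℕ => √(k : ℝ) * dv Q k (gr Q ^ 2)) atTop (𝓝 0) := by
  obtain ⟨h1, -, h5⟩ := gr_bounds Q hQ hne
  have hg : 0 < gr Q := by linarith
  obtain ⟨δ, a1, a2, a3⟩ := dev_all hQ hne
  have hfr : Tendsto (fun k : ℕ => √(k : ℝ) * (rt Q k - gr Q ^ 2)) atTop (𝓝 0) :=
    form_rate hQ hne hA h
  have hth : ∀ᶠ k : ℕ in atTop, ((1 - δ) * gr Q) ^ (2 * k) ≤ pq Q (2 * k) := by
    have hlog : 0 < -(2 * Real.log (1 - δ)) := by
      have := Real.log_neg (show 0 < 1 - δ by linarith) (by linarith)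
      linarith
    filter_upwards [h.eventually (lt_mem_nhds (show A / 2 < A by linarith)),
      exp_small (half_pos hA) hlog β, eventually_gt_atTop 0] with k e1 e2 e3
    have hk0 : (0 : ℝ) < k := by exact_mod_cast e3
    have hp : 0 < (2 * k : ℝ) ^ β := Real.rpow_pos_of_pos (by linarith) _
    have e4 := e1.le
    rw [le_div_iff₀ (mul_pos hp (pow_pos hg _))] at e4
    refine le_trans ?_ e4
    rw [mul_pow, ← mul_assoc]
    refine mul_le_mul_of_nonneg_right (le_trans (le_of_eq ?_) e2) (pow_pos hg _).le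
    have e5 : -(-(2 * Real.log (1 - δ)) * (k : ℝ)) = ((2 * k : ℕ) : ℝ) * Real.log (1 - δ) := by
      push_cast; ring
    rw [e5, Real.exp_nat_mul, Real.exp_log (by linarith)]
  -- the errors
  have hsm : Tendsto (fun k : ℕ => (10 : ℝ) ^ 17 / √(k : ℝ)) atTop (𝓝 0) :=
    (Real.tendsto_sqrt_atTop.comp tendsto_natCast_atTop_atTop).const_div_atTop _
  have habs : Tendsto (fun k : ℕ => √(k : ℝ) * |rt Q k - gr Q ^ 2|) atTop (𝓝 0) := by
    have h2 := hfr.abs
    rw [abs_zero] at h2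
    refine h2.congr fun k => ?_
    rw [abs_mul, abs_of_nonneg (Real.sqrt_nonneg _)]
  have habs1 : Tendsto (fun k : ℕ => √(k : ℝ) * |rt Q (k + 1) - gr Q ^ 2|) atTop (𝓝 0) := by
    refine squeeze_zero (fun k => by positivity) (fun k => ?_)
      (habs.comp (tendsto_add_atTop_nat 1))
    simp only [Function.comp]
    refine mul_le_mul_of_nonneg_right (Real.sqrt_le_sqrt ?_) (abs_nonneg _)
    push_cast; linarith
  have hk : ∀ᶠ k : ℕ in atTop, √(k : ℝ) * (10 ^ 17 / k) = 10 ^ 17 / √(k : ℝ) := by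
    filter_upwards [eventually_gt_atTop 0] with k hk
    have hk0 : (0 : ℝ) < k := by exact_mod_cast hk
    have hs0 : 0 < √(k : ℝ) := Real.sqrt_pos.2 hk0
    rw [mul_div_assoc', div_eq_div_iff hk0.ne' hs0.ne']
    have := Real.mul_self_sqrt hk0.le
    calc √(k : ℝ) * 10 ^ 17 * √(k : ℝ) = 10 ^ 17 * (√(k : ℝ) * √(k : ℝ)) := by ring
      _ = _ := by rw [this]
  constructor
  · have h2 : Tendsto (fun k : ℕ => √(k : ℝ) * (mean Q (2 * k) X - rt Q k)) atTop (𝓝 0) := by
      refine squeeze_zero_norm' ?_ hsm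
      filter_upwards [a3, hth, hk] with k b1 b2 b3
      rw [Real.norm_eq_abs, abs_mul, abs_of_nonneg (Real.sqrt_nonneg _), ← b3]
      exact mul_le_mul_of_nonneg_left (b1 b2).1 (Real.sqrt_nonneg _)
    have h3 := h2.add hfr
    rw [add_zero] at h3
    refine h3.congr fun k => ?_
    ring
  · have h2 : Tendsto (fun k : ℕ => 30 * (√(k : ℝ) * |rt Q k - gr Q ^ 2| +
        √(k : ℝ) * |rt Q (k + 1) - gr Q ^ 2|) + 10 ^ 17 / √(k : ℝ)) atTop (𝓝 0) := by
      have := ((habs.add habs1).const_mul 30).add hsm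
      simpa using this
    refine squeeze_zero' (Eventually.of_forall fun k => mul_nonneg (Real.sqrt_nonneg _)
      (dv_nonneg _ _ _)) ?_ h2
    filter_upwards [a3, hth, hk] with k b1 b2 b3
    obtain ⟨-, -, -, c1⟩ := b1 b2
    have h4 := mul_le_mul_of_nonneg_left c1 (Real.sqrt_nonneg (k : ℝ))
    rw [mul_add, b3] at h4
    refine h4.trans (le_of_eq ?_)
    ring

end

end X77.CC
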