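import Pool.Agent.X77.CC.Two

/-!
# Mean and mean square deviation of the ratio of free plaquettes and bumps
-/

set_option autoImplicit false

namespace X77.CC

open Finset Filter Topology KN KN.KQ TH966.KS X77.RR
open scoped Classical

noncomputable section

theorem conv_mean (k r A0 A1 T B : ℝ) (hk : 2 ≤ k) (hA0 : 0 < A0) (hr0 : 0 ≤ r) (hr : r ≤ 26)
    (hA1 : A1 = r * (1 + 1 / k) * A0) (hB : B ≤ A0 * (1 / k))
    (hT : |T - A1| ≤ 10 ^ 9 / (2 * k) * A1 + 10 ^ 8 * B) :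
    |T / A0 - r| ≤ 10 ^ 17 / k := by
  obtain ⟨u, hu⟩ : ∃ u : ℝ, u = 1 / k := ⟨_, rfl⟩
  have hk0 : 0 < k := by linarith
  have hu0 : 0 < u := by rw [hu]; positivity
  have hu1 : u ≤ 1 := by rw [hu, div_le_one hk0]; linarith
  have e1 : (10 : ℝ) ^ 9 / (2 * k) = 5 * 10 ^ 8 * u := by rw [hu]; field_simp; norm_num
  have e2 : (10 : ℝ) ^ 17 / k = 10 ^ 17 * u := by rw [hu]; ring
  rw [← hu] at hA1 hB
  rw [e1] at hT
  rw [e2]
  have e3 : T / A0 - r = (T - r * A0) / A0 := by field_simp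
  rw [e3, abs_div, abs_of_pos hA0, div_le_iff₀ hA0]
  have hAle : A1 ≤ 52 * A0 := by
    rw [hA1]
    refine mul_le_mul_of_nonneg_right ?_ hA0.le
    nlinarith
  have h1 : |T - r * A0| ≤ |T - A1| + |A1 - r * A0| := by
    have : T - r * A0 = (T - A1) + (A1 - r * A0) := by ring
    rw [this]
    exact abs_add_le _ _
  have h2 : |A1 - r * A0| ≤ 26 * u * A0 := by
    have e : A1 - r * A0 = r * u * A0 := by rw [hA1]; ring
    rw [e, abs_of_nonneg (by positivity)]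
    refine mul_le_mul_of_nonneg_right ?_ hA0.le
    nlinarith
  have h3 : 5 * 10 ^ 8 * u * A1 ≤ 5 * 10 ^ 8 * u * (52 * A0) :=
    mul_le_mul_of_nonneg_left hAle (by positivity)
  have h4 : 0 < u * A0 := by positivity
  nlinarith

theorem conv_dev (k r r' A0 A1 A2 T B x : ℝ) (hk : 2 ≤ k) (hA0 : 0 < A0) (hr0 : 0 ≤ r)
    (hr : r ≤ 26) (hr0' : 0 ≤ r') (hr' : r' ≤ 26) (hx0 : 0 ≤ x) (hx : x ≤ 30)
    (hA1 : A1 = r * (1 + 1 / k) * A0) (hA2 : A2 = r * r' * (1 + 2 * (1 / k)) * A0)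
    (hB : B ≤ A0 * (1 / k))
    (hT : T ≤ A2 * (1 + 10 ^ 9 / (2 * k)) - 2 * x * (A1 * (1 - 10 ^ 9 / (2 * k))) +
      x ^ 2 * A0 + 10 ^ 16 * B) :
    T / A0 ≤ (x - r) ^ 2 + r * (r' - r) + 10 ^ 17 / k := by
  obtain ⟨u, hu⟩ : ∃ u : ℝ, u = 1 / k := ⟨_, rfl⟩
  have hk0 : 0 < k := by linarith
  have hu0 : 0 < u := by rw [hu]; positivity
  have hu1 : u ≤ 1 := by rw [hu, div_le_one hk0]; linarith
  have e1 : (10 : ℝ) ^ 9 / (2 * k) = 5 * 10 ^ 8 * u := by rw [hu]; field_simp; norm_num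
  have e2 : (10 : ℝ) ^ 17 / k = 10 ^ 17 * u := by rw [hu]; ring
  rw [← hu] at hA1 hA2 hB
  rw [e1] at hT
  rw [e2, div_le_iff₀ hA0]
  have huu : u ^ 2 ≤ u := by nlinarith
  have hrr : r * r' ≤ 676 := by nlinarith
  have hrr0 : 0 ≤ r * r' := mul_nonneg hr0 hr0'
  have hxr : x * r ≤ 780 := by nlinarith
  have hxr0 : 0 ≤ x * r := mul_nonneg hx0 hr0
  have f1 : r * r' * ((1 + 2 * u) * (1 + 5 * 10 ^ 8 * u)) ≤ r * r' + 2 * 10 ^ 12 * u := by
    have g1 : (1 + 2 * u) * (1 + 5 * 10 ^ 8 * u) ≤ 1 + 2 * 10 ^ 9 * u := by nlinarith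
    have g2 := mul_le_mul_of_nonneg_left g1 hrr0
    have g3 : r * r' * (2 * 10 ^ 9 * u) ≤ 676 * (2 * 10 ^ 9 * u) :=
      mul_le_mul_of_nonneg_right hrr (by positivity)
    linarith
  have f2 : -(2 * (x * r) * ((1 + u) * (1 - 5 * 10 ^ 8 * u))) ≤ -(2 * (x * r)) +
      2 * 10 ^ 12 * u := by
    have g1 : 1 - 10 ^ 9 * u ≤ (1 + u) * (1 - 5 * 10 ^ 8 * u) := by nlinarith
    have g2 := mul_le_mul_of_nonneg_left g1 (show 0 ≤ 2 * (x * r) by linarith)
    have g3 : 2 * (x * r) * (10 ^ 9 * u) ≤ 1560 * (10 ^ 9 * u) :=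
      mul_le_mul_of_nonneg_right (by linarith) (by positivity)
    linarith
  have f3 : T ≤ (r * r' * ((1 + 2 * u) * (1 + 5 * 10 ^ 8 * u)) +
      -(2 * (x * r) * ((1 + u) * (1 - 5 * 10 ^ 8 * u))) + x ^ 2 + 10 ^ 16 * u) * A0 := by
    refine hT.trans ?_
    rw [hA1, hA2]
    have : 10 ^ 16 * B ≤ 10 ^ 16 * (A0 * u) := mul_le_mul_of_nonneg_left hB (by norm_num)
    nlinarith
  refine f3.trans (mul_le_mul_of_nonneg_right ?_ hA0.le)
  nlinarith

/-- the number of words in terms of `pq` -/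
theorem a_pq (Q : List Dir → Prop) (n : ℕ) (hn : 0 < n) : (a Q n : ℝ) = pq Q n * (2 * n) := by
  have : (0 : ℝ) < n := by exact_mod_cast hn
  unfold pq
  field_simp

theorem pq_nn (Q : List Dir → Prop) (n : ℕ) : 0 ≤ pq Q n := by unfold pq; positivity

/-- mean and mean square deviation -/
theorem class_dev {Q : List Dir → Prop} (hQ : KClass Q) (hne : ∃ w, SAP w ∧ Q w) :
    ∃ δ : ℝ, 0 < δ ∧ δ < 1 ∧ ∀ᶠ k : ℕ in atTop,
      ((1 - δ) * gr Q) ^ (2 * k) ≤ pq Q (2 * k) →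
      |pq Q (2 * k + 2) / pq Q (2 * k) - gr Q ^ 2| ≤ 1 ∧
      |pq Q (2 * k + 4) / pq Q (2 * k + 2) - gr Q ^ 2| ≤ 1 ∧
      |mean Q (2 * k) X - pq Q (2 * k + 2) / pq Q (2 * k)| ≤ 10 ^ 17 / k ∧
      ∀ x : ℝ, 0 ≤ x → x ≤ 30 → |mean Q (2 * k) (fun w => (X w - x) ^ 2) -
        ((x - pq Q (2 * k + 2) / pq Q (2 * k)) ^ 2 +
          pq Q (2 * k + 2) / pq Q (2 * k) * (pq Q (2 * k + 4) / pq Q (2 * k + 2) -
            pq Q (2 * k + 2) / pq Q (2 * k)))| ≤ 10 ^ 17 / k := by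
  obtain ⟨h1, -, h5⟩ := gr_bounds Q hQ hne
  have hg : 0 < gr Q := by linarith
  have hg2 : 14 ≤ gr Q ^ 2 := by nlinarith
  have hg25 : gr Q ^ 2 ≤ 25 := by nlinarith
  obtain ⟨θ, C, hθ0, hθ1, hbad⟩ := class_pattern Q hQ hne
  obtain ⟨δ₁, hδ0, hδ1, hrat⟩ := class_ratio Q hQ hne 1 one_pos
  set θ₁ : ℝ := (1 + θ) / 2 with hθ₁
  set τ : ℝ := max θ₁ (1 - δ₁) with hτ
  have hτ1 : τ < 1 := max_lt (by rw [hθ₁]; linarith) (by linarith)
  have hτθ : θ₁ ≤ τ := le_max_left _ _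
  have hτδ : 1 - δ₁ ≤ τ := le_max_right _ _
  have hθ₁0 : 0 < θ₁ := by rw [hθ₁]; linarith
  have hτ0 : 0 < τ := lt_of_lt_of_le hθ₁0 hτθ
  refine ⟨(1 - τ) / 2, by linarith, by linarith, ?_⟩
  have hs : 1 - (1 - τ) / 2 = (1 + τ) / 2 := by ring
  rw [hs]
  have ht : Tendsto (fun k : ℕ => 2 * k) atTop atTop :=
    tendsto_id.const_mul_atTop' (by norm_num)
  have ht1 : Tendsto (fun k : ℕ => 2 * (k - 1)) atTop atTop :=
    ht.comp (tendsto_sub_atTop_nat 1)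
  have hpow : Tendsto (fun k : ℕ => ((1 + τ) / 2 / τ) ^ (2 * k)) atTop atTop := by
    have h6 : 1 < (1 + τ) / 2 / τ := by rw [lt_div_iff₀ hτ0]; linarith
    exact (tendsto_pow_atTop_atTop_of_one_lt h6).comp ht
  have hrat1 : ∀ᶠ j : ℕ in atTop, ((1 - δ₁) * gr Q) ^ (2 * (j + 1)) ≤ pq Q (2 * (j + 1)) →
      |pq Q (2 * (j + 1) + 2) / pq Q (2 * (j + 1)) - gr Q ^ 2| ≤ 1 :=
    (tendsto_add_atTop_nat 1).eventually hrat
  filter_upwards [ht.eventually (CONV.errors (gr Q) θ θ₁ C hg hθ0 (by rw [hθ₁]; linarith)),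
    ht1.eventually (CONV.errors (gr Q) θ θ₁ C hg hθ0 (by rw [hθ₁]; linarith)),
    ht.eventually (eventually_ge_atTop (10 ^ 10)), hpow.eventually_ge_atTop 2, hrat, hrat1,
    ht.eventually (errors2 (gr Q) θ θ₁ C hg hθ0 (by rw [hθ₁]; linarith))]
    with k hk1 hk2 hk3 hk4 hk5 hk6 hk7 hbig
  have hkR : (10 : ℝ) ^ 10 ≤ 2 * k := by exact_mod_cast hk3
  have hk0 : (0 : ℝ) < k := by linarith
  have hkn : 5 * 10 ^ 9 ≤ k := by omega
  have hk2R : (2 : ℝ) ≤ k := by linarith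
  -- the first ratio
  have p0 : 0 < pq Q (2 * k) := lt_of_lt_of_le (by positivity) hbig
  have b0 : (τ * gr Q) ^ (2 * k) ≤ pq Q (2 * k) := by
    refine le_trans (pow_le_pow_left₀ (by positivity) ?_ _) hbig
    exact mul_le_mul_of_nonneg_right (by linarith) hg.le
  have hpd : ∀ m : ℕ, ((1 - δ₁) * gr Q) ^ m ≤ (τ * gr Q) ^ m := fun m =>
    pow_le_pow_left₀ (mul_nonneg (by linarith) hg.le)
      (mul_le_mul_of_nonneg_right hτδ hg.le) m
  have r1 := hk5 ((hpd _).trans b0)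
  set r : ℝ := pq Q (2 * k + 2) / pq Q (2 * k) with hr
  have r1' := abs_le.1 r1
  have hrp : pq Q (2 * k + 2) = r * pq Q (2 * k) := by rw [hr]; field_simp
  have hr0 : 0 < r := by linarith
  have p1 : 0 < pq Q (2 * k + 2) := by rw [hrp]; positivity
  have b1 : (τ * gr Q) ^ (2 * k + 2) ≤ pq Q (2 * k + 2) := by
    rw [hrp]
    have c1 : ((1 + τ) / 2 * gr Q) ^ (2 * k) = ((1 + τ) / 2 / τ) ^ (2 * k) *
        (τ * gr Q) ^ (2 * k) := by
      rw [← mul_pow]; congr 1; field_simp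
    have c2 : 2 * (τ * gr Q) ^ (2 * k) ≤ pq Q (2 * k) := by
      refine le_trans ?_ hbig
      rw [c1]
      exact mul_le_mul_of_nonneg_right hk4 (by positivity)
    have c3 : (τ * gr Q) ^ 2 ≤ r * 2 := by
      have : (τ * gr Q) ^ 2 ≤ gr Q ^ 2 := by
        rw [mul_pow]
        have : τ ^ 2 ≤ 1 := by nlinarith
        nlinarith
      nlinarith
    have c4 : 0 < (τ * gr Q) ^ (2 * k) := by positivity
    calc (τ * gr Q) ^ (2 * k + 2) = (τ * gr Q) ^ 2 * (τ * gr Q) ^ (2 * k) := by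
          rw [pow_add]; ring
      _ ≤ (r * 2) * (τ * gr Q) ^ (2 * k) := mul_le_mul_of_nonneg_right c3 c4.le
      _ = r * (2 * (τ * gr Q) ^ (2 * k)) := by ring
      _ ≤ _ := mul_le_mul_of_nonneg_left c2 hr0.le
  have e22 : 2 * (k + 1) = 2 * k + 2 := by ring
  rw [e22] at hk6
  have r2 := hk6 ((hpd _).trans b1)
  have e24 : 2 * k + 2 + 2 = 2 * k + 4 := by ring
  rw [e24] at r2
  set r' : ℝ := pq Q (2 * k + 4) / pq Q (2 * k + 2) with hr'
  have r2' := abs_le.1 r2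
  have hrp' : pq Q (2 * k + 4) = r' * pq Q (2 * k + 2) := by rw [hr']; field_simp
  have hr0' : 0 < r' := by linarith
  refine ⟨r1, r2, ?_⟩
  -- the counts
  obtain ⟨n, hn⟩ : ∃ n : ℕ, n = 2 * k := ⟨_, rfl⟩
  have hnR : (n : ℝ) = 2 * k := by rw [hn]; push_cast; ring
  have hn' : (10 : ℝ) ^ 10 ≤ n := by rw [hnR]; exact hkR
  have hn3 : 10 ^ 10 ≤ n := by rw [hn]; exact hk3
  have hn0 : (0 : ℝ) < n := by linarith
  have A0e : (a Q n : ℝ) = pq Q (2 * k) * (2 * (2 * k)) := by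
    rw [hn, a_pq Q _ (by omega)]; push_cast; ring
  have A1e : (a Q (n + 2) : ℝ) = r * (1 + 1 / k) * a Q n := by
    rw [A0e, hn, a_pq Q _ (by omega), hrp]; push_cast; field_simp
  have A2e : (a Q (n + 4) : ℝ) = r * r' * (1 + 2 * (1 / k)) * a Q n := by
    rw [A0e, hn, a_pq Q _ (by omega), hrp', hrp]; push_cast; field_simp; ring
  have A0p : (0 : ℝ) < a Q n := by rw [A0e]; positivity
  have A0ge : pq Q (2 * k) ≤ a Q n := by
    rw [A0e]; exact le_mul_of_one_le_right p0.le (by linarith)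
  have A1ge : pq Q (2 * k + 2) ≤ a Q (n + 2) := by
    rw [hn, a_pq Q _ (by omega)]
    refine le_mul_of_one_le_right p1.le ?_
    push_cast
    linarith
  have up := CONV.upper c_sum S_change_proof Q (GEN.inv_of Q hQ) n hn3
  have lo := CONV.lower S_ins_proof c_sum S_change_proof Q (GEN.inv_of Q hQ) n hn3
  have lo1 := lower1 c_sum S_change_proof Q (GEN.inv_of Q hQ) n hn3
  rw [← hn] at hk1
  set G := (K Q n).filter (CONV.good n) with hG
  set S1 : ℝ := ∑ w ∈ G, (fr w : ℝ) / (bu w : ℝ) with hS1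
  set S2 : ℝ := ∑ w ∈ G, ((fr w : ℝ) / (bu w : ℝ)) ^ 2 with hS2
  have hgood : ∀ w ∈ G, (n : ℝ) < 10 ^ 7 * fr w ∧ (n : ℝ) < 10 ^ 7 * bu w := by
    intro w hw
    have := (mem_filter.mp hw).2
    exact ⟨by exact_mod_cast this.1, by exact_mod_cast this.2⟩
  have hS1' : 0 ≤ S1 := by apply sum_nonneg; intro w _; positivity
  have hS2' : 0 ≤ S2 := by apply sum_nonneg; intro w _; positivity
  have u1 : (a Q (n + 2) : ℝ) - (bad Q (n + 2) + 6 * n * bad Q n) ≤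
      (1 + 6 * 10 ^ 7 / n) * S1 := by
    have : ∑ w ∈ G, (fr w : ℝ) / ((bu w : ℝ) - 3) ≤ (1 + 6 * 10 ^ 7 / n) * S1 := by
      rw [hS1, mul_sum]
      apply sum_le_sum
      intro w hw
      exact CONV.term1 _ _ _ hn' (by positivity) (hgood w hw).2
    linarith
  have u1' : (1 - 5 * 10 ^ 7 / n) * S1 ≤ a Q (n + 2) := by
    refine le_trans ?_ lo1
    rw [hS1, mul_sum]
    apply sum_le_sum
    intro w hw
    exact term0 _ _ _ hn' (by positivity) (hgood w hw).2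
  have u2 : (1 - 43 * 10 ^ 7 / n) * S2 ≤ a Q (n + 4) := by
    refine le_trans ?_ lo
    rw [hS2, mul_sum]
    apply sum_le_sum
    intro w hw
    exact CONV.term2 _ _ _ hn' (hgood w hw).1 (hgood w hw).2
  have hth : ∀ m : ℕ, (θ₁ * gr Q) ^ m ≤ (τ * gr Q) ^ m := fun m =>
    pow_le_pow_left₀ (by positivity) (mul_le_mul_of_nonneg_right hτθ hg.le) m
  have u3 : (bad Q (n + 2) + 6 * n * bad Q n : ℝ) ≤ (a Q (n + 2) : ℝ) / n := by
    rw [le_div_iff₀ hn0]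
    have b1' := hbad (n + 2)
    have b2' := hbad n
    calc (bad Q (n + 2) + 6 * n * bad Q n : ℝ) * n
        ≤ (C * (θ * gr Q) ^ (n + 2) + 6 * n * (C * (θ * gr Q) ^ n)) * n := by
          apply mul_le_mul_of_nonneg_right _ hn0.le
          apply add_le_add b1'
          exact mul_le_mul_of_nonneg_left b2' (by positivity)
      _ = n * (C * (θ * gr Q) ^ (n + 2) + 6 * n * (C * (θ * gr Q) ^ n)) := mul_comm _ _
      _ ≤ (θ₁ * gr Q) ^ (n + 2) := hk1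
      _ ≤ _ := (hth _).trans ((by rw [hn]; exact b1 : (τ * gr Q) ^ (n + 2) ≤
          pq Q (2 * k + 2)).trans A1ge)
  -- the bad words of length `n`
  have u4 : (bad Q n : ℝ) ≤ a Q n * (1 / k) := by
    rw [mul_one_div, le_div_iff₀ hk0]
    have e3 : 2 * (k - 1) + 2 = n := by omega
    rw [e3] at hk2
    have hC0 : 0 ≤ C * (θ * gr Q) ^ n := le_trans (Nat.cast_nonneg _) (hbad n)
    have e4 : (((2 * (k - 1) : ℕ)) : ℝ) = 2 * k - 2 := by
      rw [Nat.cast_mul, Nat.cast_sub (by omega)]; push_cast; ring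
    rw [e4] at hk2
    have hC1 : 0 ≤ C * (θ * gr Q) ^ (2 * (k - 1)) := le_trans (Nat.cast_nonneg _) (hbad _)
    have c1 : (2 * (k : ℝ) - 2) * (C * (θ * gr Q) ^ n) ≤ (θ₁ * gr Q) ^ n := by
      refine le_trans ?_ hk2
      refine mul_le_mul_of_nonneg_left ?_ (by linarith)
      have : 0 ≤ 6 * (2 * (k : ℝ) - 2) * (C * (θ * gr Q) ^ (2 * (k - 1))) :=
        mul_nonneg (by linarith) hC1
      linarith
    calc (bad Q n : ℝ) * k ≤ C * (θ * gr Q) ^ n * k :=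
          mul_le_mul_of_nonneg_right (hbad n) hk0.le
      _ ≤ (2 * (k : ℝ) - 2) * (C * (θ * gr Q) ^ n) := by nlinarith
      _ ≤ (θ₁ * gr Q) ^ n := c1
      _ ≤ (τ * gr Q) ^ n := hth _
      _ ≤ pq Q (2 * k) := by rw [hn]; exact b0
      _ ≤ _ := A0ge
  -- the errors of the upper bound for two steps
  have u5 : (bad Q (n + 4) + 6 * (n + 2) * bad Q (n + 2) + 6 * 10 ^ 8 * n * bad Q n : ℝ) ≤
      a Q n * (1 / k) := by
    rw [mul_one_div, le_div_iff₀ hk0]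
    rw [← hn] at hk7
    have c1 := hbad (n + 4)
    have c2 := hbad (n + 2)
    have c3 := hbad n
    have c4 : (bad Q (n + 4) + 6 * (n + 2) * bad Q (n + 2) + 6 * 10 ^ 8 * n * bad Q n : ℝ) ≤
        C * (θ * gr Q) ^ (n + 4) + 6 * (n + 2) * (C * (θ * gr Q) ^ (n + 2)) +
          6 * 10 ^ 8 * n * (C * (θ * gr Q) ^ n) := by
      refine add_le_add (add_le_add c1 ?_) ?_
      · exact mul_le_mul_of_nonneg_left c2 (by positivity)
      · exact mul_le_mul_of_nonneg_left c3 (by positivity)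
    have c5 : (0 : ℝ) ≤ bad Q (n + 4) + 6 * (n + 2) * bad Q (n + 2) +
        6 * 10 ^ 8 * n * bad Q n := by positivity
    calc (bad Q (n + 4) + 6 * (n + 2) * bad Q (n + 2) + 6 * 10 ^ 8 * n * bad Q n : ℝ) * k
        ≤ (bad Q (n + 4) + 6 * (n + 2) * bad Q (n + 2) + 6 * 10 ^ 8 * n * bad Q n : ℝ) * n :=
          mul_le_mul_of_nonneg_left (by rw [hnR]; linarith) c5
      _ ≤ (C * (θ * gr Q) ^ (n + 4) + 6 * (n + 2) * (C * (θ * gr Q) ^ (n + 2)) +
          6 * 10 ^ 8 * n * (C * (θ * gr Q) ^ n)) * n :=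
          mul_le_mul_of_nonneg_right c4 hn0.le
      _ = n * (C * (θ * gr Q) ^ (n + 4) + 6 * (n + 2) * (C * (θ * gr Q) ^ (n + 2)) +
          6 * 10 ^ 8 * n * (C * (θ * gr Q) ^ n)) := mul_comm _ _
      _ ≤ (θ₁ * gr Q) ^ n := hk7
      _ ≤ (τ * gr Q) ^ n := hth _
      _ ≤ pq Q (2 * k) := by rw [hn]; exact b0
      _ ≤ _ := A0ge
  have up2 := upper2 c_sum S_change_proof Q (GEN.inv_of Q hQ) n hn3
  have u6 : (a Q (n + 4) : ℝ) - (bad Q (n + 4) + 6 * (n + 2) * bad Q (n + 2) +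
      6 * 10 ^ 8 * n * bad Q n) ≤ (1 + 30 * 10 ^ 7 / n) * S2 := by
    have : ∑ w ∈ G, (fr w : ℝ) * ((fr w : ℝ) + 12) / (((bu w : ℝ) - 6) * ((bu w : ℝ) - 3)) ≤
        (1 + 30 * 10 ^ 7 / n) * S2 := by
      rw [hS2, mul_sum]
      apply sum_le_sum
      intro w hw
      exact term3 _ _ _ hn' (hgood w hw).1 (hgood w hw).2
    linarith
  have hGc : (G.card : ℝ) ≤ a Q n := by
    have : G.card ≤ a Q n := card_filter_le _ _
    exact_mod_cast this
  obtain ⟨f1, f2⟩ := fin2 (a Q n) (a Q (n + 2)) (a Q (n + 4))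
    (bad Q (n + 2) + 6 * n * bad Q n) S1 S2 G.card n hn' (by positivity) hS1' hS2' hGc
    u1 u3 u1' u2
  -- sums over all words
  have hsplit : ∀ f : List Dir → ℝ, ∑ w ∈ K Q n, f w = ∑ w ∈ G, f w +
      ∑ w ∈ (K Q n).filter (fun w => ¬ CONV.good n w), f w := by
    intro f
    rw [hG, sum_filter_add_sum_filter_not]
  have hbadc : (((K Q n).filter (fun w => ¬ CONV.good n w)).card : ℝ) = bad Q n := by
    unfold bad
    congr 2
    apply filter_congr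
    intro w _
    rw [CONV.not_good]
  have hbb : ∀ (f : List Dir → ℝ) (M : ℝ), (∀ w, 0 ≤ f w) → (∀ w, f w ≤ M) →
      0 ≤ ∑ w ∈ (K Q n).filter (fun w => ¬ CONV.good n w), f w ∧
      ∑ w ∈ (K Q n).filter (fun w => ¬ CONV.good n w), f w ≤ M * bad Q n := by
    intro f M h0 hM
    refine ⟨sum_nonneg fun w _ => h0 w, ?_⟩
    rw [← hbadc, mul_comm, ← nsmul_eq_mul]
    exact sum_le_card_nsmul _ _ _ fun w _ => hM w
  have hGc' : (a Q n : ℝ) - bad Q n ≤ G.card := by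
    have h6 := hsplit (fun _ => (1 : ℝ))
    simp only [sum_const, nsmul_eq_mul, mul_one] at h6
    rw [hbadc] at h6
    have h7 : (a Q n : ℝ) = (K Q n).card := rfl
    linarith
  have f3 := fin3 (a Q n) (a Q (n + 2)) (a Q (n + 4))
    (bad Q (n + 4) + 6 * (n + 2) * bad Q (n + 2) + 6 * 10 ^ 8 * n * bad Q n) S1 S2 G.card (bad Q n)
    n hn' (by positivity) (by positivity) hGc' (by
      have := (abs_le.1 f1).2
      linarith) u6
  have hXG : ∀ w ∈ G, X w = (fr w : ℝ) / (bu w : ℝ) := fun w hw =>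
    X_good Q n w hn3 (mem_filter.1 hw).1 (mem_filter.1 hw).2
  constructor
  · unfold mean
    rw [← hn]
    obtain ⟨g1, g2⟩ := hbb X (10 ^ 8) X_nonneg X_le
    refine conv_mean k r (a Q n) (a Q (n + 2)) _ (bad Q n) hk2R A0p hr0.le (by linarith) A1e u4 ?_
    have e5 : ∑ w ∈ G, X w = S1 := by
      rw [hS1]; exact sum_congr rfl hXG
    rw [hsplit, e5, ← hnR]
    have f1' := abs_le.1 f1
    rw [abs_le]
    constructor
    · have : 0 ≤ 10 ^ 8 * (bad Q n : ℝ) := by positivity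
      linarith
    · linarith
  · intro x hx0 hx
    unfold mean
    rw [← hn]
    obtain ⟨g1, g2⟩ := hbb (fun w => (X w - x) ^ 2) (10 ^ 16) (fun w => sq_nonneg _) (by
      intro w
      have h6 := X_nonneg w
      have h7 := X_le w
      have : |X w - x| ≤ 10 ^ 8 := abs_le.2 ⟨by linarith, by linarith⟩
      calc (X w - x) ^ 2 = |X w - x| ^ 2 := (sq_abs _).symm
        _ ≤ (10 ^ 8) ^ 2 := pow_le_pow_left₀ (abs_nonneg _) this 2
        _ = 10 ^ 16 := by norm_num)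
    have e5 : ∑ w ∈ G, (X w - x) ^ 2 = S2 - 2 * x * S1 + x ^ 2 * G.card := by
      rw [hS1, hS2, mul_sum, mul_comm (x ^ 2), ← nsmul_eq_mul, ← sum_const, ← sum_sub_distrib,
        ← sum_add_distrib]
      refine sum_congr rfl fun w hw => ?_
      rw [hXG w hw]
      ring
    have h8 := conv_dev k r r' (a Q n) (a Q (n + 2)) (a Q (n + 4))
      (∑ w ∈ K Q n, (X w - x) ^ 2) (bad Q n) x hk2R A0p hr0.le
      (by linarith) hr0'.le (by linarith) hx0 hx A1e A2e u4 (by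
        rw [hsplit, e5, ← hnR]
        have := f2 x hx0
        linarith)
    have h9 := conv_low k r r' (a Q n) (a Q (n + 2)) (a Q (n + 4))
      (∑ w ∈ K Q n, (X w - x) ^ 2) (bad Q n)
      (bad Q (n + 4) + 6 * (n + 2) * bad Q (n + 2) + 6 * 10 ^ 8 * n * bad Q n) x hk2R A0p hr0.le
      (by linarith) hr0'.le (by linarith) hx0 hx A1e A2e u4 u5 (by
        rw [hsplit, e5, ← hnR]
        have := f3 x hx0
        linarith)
    rw [abs_le]
    constructor <;> linarith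

end

end X77.CC
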