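import Pool.Agent.X77.CC.Core

/-!
# The ratio of free plaquettes and bumps: two steps, upper bound
-/

set_option autoImplicit false

namespace X77.CC

open Finset Filter Topology KN KN.KQ
open scoped Classical

noncomputable section

/-- two steps, upper bound for `a (n+4)` -/
theorem upper2 (hsum : S_sum) (hch : S_change) (Q : List Dir → Prop) (hQ : Inv Q)
    (n : ℕ) (hn : 10 ^ 10 ≤ n) :
    (a Q (n + 4) : ℝ) ≤ (bad Q (n + 4) + 6 * (n + 2) * bad Q (n + 2) +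
      6 * 10 ^ 8 * n * bad Q n) +
      ∑ w ∈ (K Q n).filter (CONV.good n), (fr w : ℝ) * ((fr w : ℝ) + 12) /
        (((bu w : ℝ) - 6) * ((bu w : ℝ) - 3)) := by
  have up := CONV.upper hsum hch Q hQ (n + 2) (by omega)
  rw [show n + 2 + 2 = n + 4 by ring] at up
  push_cast at up
  set h : List Dir → ℝ := fun w' => if CONV.good (n + 2) w' then (fr w' : ℝ) / ((bu w' : ℝ) - 3)
    else 0 with hh
  have e1 : ∑ w ∈ (K Q (n + 2)).filter (CONV.good (n + 2)), (fr w : ℝ) / ((bu w : ℝ) - 3) =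
      ∑ w ∈ K Q (n + 2), ∑ j ∈ bumps w, h w * (1 / (bu w : ℝ)) := by
    rw [sum_filter]
    refine sum_congr rfl fun w _ => ?_
    rw [← mul_sum]
    by_cases hg : CONV.good (n + 2) w
    · have hb : 0 < bu w := by
        have h2 : n + 2 < 10 ^ 7 * bu w := hg.2
        omega
      rw [if_pos hg, CONV.sum_inv_eq w hb, mul_one]
      simp only [hh, if_pos hg]
    · rw [if_neg hg]
      simp only [hh, if_neg hg, zero_mul]
  have hS := hsum Q hQ n (by omega) (fun _ w' => h w' * (1 / (bu w' : ℝ)))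
  have e2 : ∑ w ∈ K Q n, ∑ q ∈ sites w, h (ins w q.1 q.2) * (1 / (bu (ins w q.1 q.2) : ℝ)) ≤
      6 * 10 ^ 8 * n * bad Q n +
      ∑ w ∈ (K Q n).filter (CONV.good n), (fr w : ℝ) * ((fr w : ℝ) + 12) /
        (((bu w : ℝ) - 6) * ((bu w : ℝ) - 3)) := by
    have h2 : ∀ w ∈ K Q n, ∑ q ∈ sites w, h (ins w q.1 q.2) * (1 / (bu (ins w q.1 q.2) : ℝ)) ≤
        (if ¬ CONV.good n w then (6 * 10 ^ 8 * n : ℝ) else 0) +
          (if CONV.good n w then (fr w : ℝ) * ((fr w : ℝ) + 12) /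
            (((bu w : ℝ) - 6) * ((bu w : ℝ) - 3)) else 0) := by
      intro w hw
      rw [mem_K] at hw
      have hlen := CONV.fr_le w
      rw [hw.1] at hlen
      have hlenR : (fr w : ℝ) ≤ 6 * n := by exact_mod_cast hlen
      have hn0 : (0 : ℝ) < n := by
        have : 0 < n := by omega
        exact_mod_cast this
      by_cases hg : CONV.good n w
      · rw [if_neg (not_not.mpr hg), if_pos hg, zero_add]
        have hb : 1000 < bu w := by
          have := hg.2; omega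
        have hb' : (1000 : ℝ) < bu w := by exact_mod_cast hb
        have : ∀ q ∈ sites w, h (ins w q.1 q.2) * (1 / (bu (ins w q.1 q.2) : ℝ)) ≤
            ((fr w : ℝ) + 12) / (((bu w : ℝ) - 6) * ((bu w : ℝ) - 3)) := by
          intro q hq
          have hs : site w q.1 q.2 := mem_sites.mp hq
          obtain ⟨-, c2, -, c4⟩ := hch w q.1 q.2 hw.2.1 hs
          have c2' : (fr (ins w q.1 q.2) : ℝ) ≤ fr w + 12 := by exact_mod_cast c2
          have c4' : (bu w : ℝ) ≤ bu (ins w q.1 q.2) + 3 := by exact_mod_cast c4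
          have hf0 : (0 : ℝ) ≤ fr (ins w q.1 q.2) := Nat.cast_nonneg _
          have k1 : h (ins w q.1 q.2) ≤ ((fr w : ℝ) + 12) / ((bu w : ℝ) - 6) := by
            simp only [hh]
            split_ifs
            · apply div_le_div₀ <;> linarith
            · apply div_nonneg
              · positivity
              · linarith
          have k2 : (1 / (bu (ins w q.1 q.2) : ℝ)) ≤ 1 / ((bu w : ℝ) - 3) := by
            apply one_div_le_one_div_of_le <;> linarith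
          calc h (ins w q.1 q.2) * (1 / (bu (ins w q.1 q.2) : ℝ))
              ≤ ((fr w : ℝ) + 12) / ((bu w : ℝ) - 6) * (1 / ((bu w : ℝ) - 3)) := by
                apply mul_le_mul k1 k2
                · positivity
                · apply div_nonneg
                  · positivity
                  · linarith
            _ = _ := by rw [mul_one_div, div_div]
        refine (sum_le_sum this).trans (le_of_eq ?_)
        rw [sum_const, nsmul_eq_mul, mul_div_assoc]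
        rfl
      · rw [if_pos hg, if_neg hg, add_zero]
        have : ∀ q ∈ sites w, h (ins w q.1 q.2) * (1 / (bu (ins w q.1 q.2) : ℝ)) ≤ 10 ^ 8 := by
          intro q hq
          have hs : site w q.1 q.2 := mem_sites.mp hq
          have k1 : h (ins w q.1 q.2) ≤ 10 ^ 8 := by
            simp only [hh]
            split_ifs with hg2
            · have hb1 : ((n : ℝ) + 2) < 10 ^ 7 * bu (ins w q.1 q.2) := by exact_mod_cast hg2.2
              have hnR : (10 : ℝ) ^ 10 ≤ n := by exact_mod_cast hn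
              obtain ⟨-, c2, -, -⟩ := hch w q.1 q.2 hw.2.1 hs
              have c2' : (fr (ins w q.1 q.2) : ℝ) ≤ fr w + 12 := by exact_mod_cast c2
              rw [div_le_iff₀ (by linarith)]
              linarith
            · norm_num
          have k2 := CONV.inv_le_one (bu (ins w q.1 q.2))
          have k3 : 0 ≤ (1 / (bu (ins w q.1 q.2) : ℝ)) := by positivity
          calc h (ins w q.1 q.2) * (1 / (bu (ins w q.1 q.2) : ℝ)) ≤ 10 ^ 8 * 1 :=
                mul_le_mul k1 k2 k3 (by norm_num)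
            _ = _ := mul_one _
        refine (sum_le_sum this).trans ?_
        rw [sum_const, nsmul_eq_mul]
        have h3 : ((sites w).card : ℝ) ≤ 6 * n := hlenR
        nlinarith
    refine (sum_le_sum h2).trans ?_
    rw [sum_add_distrib, ← sum_filter, ← sum_filter, sum_const, nsmul_eq_mul]
    refine add_le_add (le_of_eq ?_) le_rfl
    rw [mul_comm]
    congr 2
    unfold bad
    congr 1
    apply filter_congr
    intro w _
    rw [CONV.not_good]
  rw [e1, ← hS] at up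
  linarith

theorem term3 (F B n : ℝ) (hn : 10 ^ 10 ≤ n) (hF : n < 10 ^ 7 * F) (hB : n < 10 ^ 7 * B) :
    F * (F + 12) / ((B - 6) * (B - 3)) ≤ (1 + 30 * 10 ^ 7 / n) * (F / B) ^ 2 := by
  have hn0 : 0 < n := by linarith
  have hB0 : 1000 < B := by linarith
  have hF0 : 1000 < F := by linarith
  obtain ⟨x, hx⟩ : ∃ x : ℝ, x = 10 ^ 7 / n := ⟨_, rfl⟩
  have hx0 : 0 < x := by rw [hx]; positivity
  have hx1 : x ≤ 1 / 1000 := by
    rw [hx, div_le_div_iff₀ hn0 (by norm_num)]; linarith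
  have e1 : 30 * 10 ^ 7 / n = 30 * x := by rw [hx]; ring
  have xF : 1 ≤ x * F := by
    rw [hx, div_mul_eq_mul_div, le_div_iff₀ hn0]; linarith
  have xB : 1 ≤ x * B := by
    rw [hx, div_mul_eq_mul_div, le_div_iff₀ hn0]; linarith
  have p : 0 < (B - 6) * (B - 3) := mul_pos (by linarith) (by linarith)
  rw [e1, div_pow, ← mul_div_assoc, div_le_div_iff₀ p (by positivity)]
  -- F (F+12) B^2 ≤ (1 + 30x) F^2 (B-6)(B-3)
  have a1 : F + 12 ≤ (1 + 12 * x) * F := by nlinarith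
  have a2 : (1 - 6 * x) * B ≤ B - 6 := by nlinarith
  have a3 : (1 - 3 * x) * B ≤ B - 3 := by nlinarith
  have b0 : 1 + 12 * x ≤ (1 + 30 * x) * ((1 - 6 * x) * (1 - 3 * x)) := by
    have q1 : 0 ≤ x * (9 - 252 * x) := mul_nonneg hx0.le (by linarith)
    have q2 : 0 ≤ x ^ 3 := by positivity
    have e : (1 + 30 * x) * ((1 - 6 * x) * (1 - 3 * x)) =
        1 + 12 * x + x * (9 - 252 * x) + 540 * x ^ 3 := by ring
    linarith
  have c1 : ((1 - 6 * x) * B) * ((1 - 3 * x) * B) ≤ (B - 6) * (B - 3) := by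
    apply mul_le_mul a2 a3
    · apply mul_nonneg <;> linarith
    · linarith
  calc F * (F + 12) * B ^ 2 ≤ F * ((1 + 12 * x) * F) * B ^ 2 := by
        apply mul_le_mul_of_nonneg_right _ (by positivity)
        exact mul_le_mul_of_nonneg_left a1 (by linarith)
    _ = (1 + 12 * x) * (F ^ 2 * B ^ 2) := by ring
    _ ≤ (1 + 30 * x) * ((1 - 6 * x) * (1 - 3 * x)) * (F ^ 2 * B ^ 2) := by
        apply mul_le_mul_of_nonneg_right b0 (by positivity)
    _ = (1 + 30 * x) * F ^ 2 * (((1 - 6 * x) * B) * ((1 - 3 * x) * B)) := by ring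
    _ ≤ (1 + 30 * x) * F ^ 2 * ((B - 6) * (B - 3)) := by
        apply mul_le_mul_of_nonneg_left c1 (by positivity)

theorem errors2 (μ θ θ₁ C : ℝ) (hμ : 0 < μ) (hθ : 0 < θ) (hθ₁ : θ < θ₁) :
    ∀ᶠ n : ℕ in atTop, (n : ℝ) * (C * (θ * μ) ^ (n + 4) + 6 * (n + 2) * (C * (θ * μ) ^ (n + 2)) +
      6 * 10 ^ 8 * n * (C * (θ * μ) ^ n)) ≤ (θ₁ * μ) ^ n := by
  have hθ1' : 0 < θ₁ := hθ.trans hθ₁
  set r : ℝ := θ / θ₁ with hr
  have hr0 : 0 ≤ r := by positivity
  have hr1 : r < 1 := by rw [hr, div_lt_one hθ1']; exact hθ₁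
  have t1 := tendsto_pow_const_mul_const_pow_of_lt_one 1 hr0 hr1
  have t2 := tendsto_pow_const_mul_const_pow_of_lt_one 2 hr0 hr1
  have t3 : Tendsto (fun n : ℕ => (C * (θ * μ) ^ 4 + 12 * C * (θ * μ) ^ 2) *
      ((n : ℝ) ^ 1 * r ^ n) + (6 * C * (θ * μ) ^ 2 + 6 * 10 ^ 8 * C) * ((n : ℝ) ^ 2 * r ^ n))
      atTop (𝓝 0) := by
    have := (t1.const_mul (C * (θ * μ) ^ 4 + 12 * C * (θ * μ) ^ 2)).add
      (t2.const_mul (6 * C * (θ * μ) ^ 2 + 6 * 10 ^ 8 * C))
    simpa using this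
  filter_upwards [t3.eventually_le_const (show (0 : ℝ) < 1 by norm_num)] with n hn
  have hp : 0 < (θ₁ * μ) ^ n := by positivity
  have hrn : (θ * μ) ^ n = r ^ n * (θ₁ * μ) ^ n := by
    rw [hr, ← mul_pow]; congr 1; field_simp
  have e : (n : ℝ) * (C * (θ * μ) ^ (n + 4) + 6 * (n + 2) * (C * (θ * μ) ^ (n + 2)) +
      6 * 10 ^ 8 * n * (C * (θ * μ) ^ n)) =
      ((C * (θ * μ) ^ 4 + 12 * C * (θ * μ) ^ 2) * ((n : ℝ) ^ 1 * r ^ n) +
      (6 * C * (θ * μ) ^ 2 + 6 * 10 ^ 8 * C) * ((n : ℝ) ^ 2 * r ^ n)) * (θ₁ * μ) ^ n := by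
    rw [pow_add (θ * μ) n 4, pow_add (θ * μ) n 2, hrn]
    ring
  rw [e]
  calc _ ≤ 1 * (θ₁ * μ) ^ n := mul_le_mul_of_nonneg_right hn hp.le
    _ = _ := one_mul _

/-- the analytic part, lower bound -/
theorem fin3 (A0 A1 A2 E2 S1 S2 G B n : ℝ) (hn : 10 ^ 10 ≤ n) (hA2 : 0 ≤ A2) (hE2 : 0 ≤ E2)
    (hG : A0 - B ≤ G) (h1 : S1 ≤ A1 * (1 + 10 ^ 9 / n))
    (h2 : A2 - E2 ≤ (1 + 30 * 10 ^ 7 / n) * S2) :
    ∀ x : ℝ, 0 ≤ x → A2 * (1 - 10 ^ 9 / n) - E2 - 2 * x * (A1 * (1 + 10 ^ 9 / n)) +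
      x ^ 2 * (A0 - B) ≤ S2 - 2 * x * S1 + x ^ 2 * G := by
  intro x hx
  have hn0 : 0 < n := by linarith
  obtain ⟨y, hy⟩ : ∃ y : ℝ, y = 10 ^ 9 / n := ⟨_, rfl⟩
  have hy0 : 0 < y := by rw [hy]; positivity
  have hy1 : y ≤ 1 / 10 := by
    rw [hy, div_le_div_iff₀ hn0 (by norm_num)]; linarith
  have e2 : 30 * 10 ^ 7 / n = 30 / 100 * y := by rw [hy]; ring
  rw [e2] at h2
  rw [← hy] at h1 ⊢
  have u : A2 * (1 - y) - E2 ≤ S2 := by
    have p : 0 < 1 + 30 / 100 * y := by linarith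
    refine le_of_mul_le_mul_left ?_ p
    refine le_trans ?_ h2
    have q : (1 + 30 / 100 * y) * (1 - y) ≤ 1 := by nlinarith
    have q2 := mul_le_mul_of_nonneg_left q hA2
    have q3 : 0 ≤ 30 / 100 * y * E2 := by positivity
    linarith
  have v1 : 2 * x * S1 ≤ 2 * x * (A1 * (1 + y)) := mul_le_mul_of_nonneg_left h1 (by linarith)
  have v2 : x ^ 2 * (A0 - B) ≤ x ^ 2 * G := mul_le_mul_of_nonneg_left hG (sq_nonneg x)
  linarith

theorem conv_low (k r r' A0 A1 A2 T B E2 x : ℝ) (hk : 2 ≤ k) (hA0 : 0 < A0) (hr0 : 0 ≤ r)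
    (hr : r ≤ 26) (hr0' : 0 ≤ r') (hr' : r' ≤ 26) (hx0 : 0 ≤ x) (hx : x ≤ 30)
    (hA1 : A1 = r * (1 + 1 / k) * A0) (hA2 : A2 = r * r' * (1 + 2 * (1 / k)) * A0)
    (hB : B ≤ A0 * (1 / k)) (hE : E2 ≤ A0 * (1 / k))
    (hT : A2 * (1 - 10 ^ 9 / (2 * k)) - E2 - 2 * x * (A1 * (1 + 10 ^ 9 / (2 * k))) +
      x ^ 2 * (A0 - B) ≤ T) :
    (x - r) ^ 2 + r * (r' - r) - 10 ^ 17 / k ≤ T / A0 := by
  obtain ⟨u, hu⟩ : ∃ u : ℝ, u = 1 / k := ⟨_, rfl⟩
  have hk0 : 0 < k := by linarith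
  have hu0 : 0 < u := by rw [hu]; positivity
  have hu1 : u ≤ 1 := by rw [hu, div_le_one hk0]; linarith
  have e1 : (10 : ℝ) ^ 9 / (2 * k) = 5 * 10 ^ 8 * u := by rw [hu]; field_simp; norm_num
  have e2 : (10 : ℝ) ^ 17 / k = 10 ^ 17 * u := by rw [hu]; ring
  rw [← hu] at hA1 hA2 hB hE
  rw [e1] at hT
  rw [e2, le_div_iff₀ hA0]
  have huu : u ^ 2 ≤ u := by nlinarith
  have hrr : r * r' ≤ 676 := by nlinarith
  have hrr0 : 0 ≤ r * r' := mul_nonneg hr0 hr0'
  have hxr : x * r ≤ 780 := by nlinarith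
  have hxr0 : 0 ≤ x * r := mul_nonneg hx0 hr0
  have hxx : x ^ 2 ≤ 900 := by nlinarith
  have f1 : r * r' - 2 * 10 ^ 12 * u ≤ r * r' * ((1 + 2 * u) * (1 - 5 * 10 ^ 8 * u)) := by
    have g1 : 1 - 2 * 10 ^ 9 * u ≤ (1 + 2 * u) * (1 - 5 * 10 ^ 8 * u) := by nlinarith
    have g2 := mul_le_mul_of_nonneg_left g1 hrr0
    have g3 : r * r' * (2 * 10 ^ 9 * u) ≤ 676 * (2 * 10 ^ 9 * u) :=
      mul_le_mul_of_nonneg_right hrr (by positivity)
    linarith
  have f2 : 2 * (x * r) * ((1 + u) * (1 + 5 * 10 ^ 8 * u)) ≤ 2 * (x * r) +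
      4 * 10 ^ 12 * u := by
    have g1 : (1 + u) * (1 + 5 * 10 ^ 8 * u) ≤ 1 + 2 * 10 ^ 9 * u := by nlinarith
    have g2 := mul_le_mul_of_nonneg_left g1 (show 0 ≤ 2 * (x * r) by linarith)
    have g3 : 2 * (x * r) * (2 * 10 ^ 9 * u) ≤ 1560 * (2 * 10 ^ 9 * u) :=
      mul_le_mul_of_nonneg_right (by linarith) (by positivity)
    linarith
  have f4 : x ^ 2 * B ≤ 900 * (A0 * u) := by
    have h3 : x ^ 2 * B ≤ x ^ 2 * (A0 * u) := mul_le_mul_of_nonneg_left hB (sq_nonneg x)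
    have h4 : x ^ 2 * (A0 * u) ≤ 900 * (A0 * u) :=
      mul_le_mul_of_nonneg_right hxx (by positivity)
    linarith
  have f3 : (r * r' * ((1 + 2 * u) * (1 - 5 * 10 ^ 8 * u)) -
      2 * (x * r) * ((1 + u) * (1 + 5 * 10 ^ 8 * u)) + x ^ 2 - 1000 * u) * A0 ≤ T := by
    refine le_trans ?_ hT
    rw [hA1, hA2]
    have : 0 < A0 * u := by positivity
    nlinarith
  refine le_trans (mul_le_mul_of_nonneg_right ?_ hA0.le) f3
  nlinarith

end

end X77.CC
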